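import Pool.Agent.Helper445_GMF.DefN
import Pool.Agent.W2helper44.WPL

/-!
Two exceptional objects of the stable category of vector bundles on the weighted projective line of
weights `3, 4, 5` which have the same class in the Grothendieck group and which do not differ by a
twist with a multiple of the canonical element (nor by a power of the suspension).
-/

set_option autoImplicit false

open CategoryTheory Pretriangulated MvPolynomial Matrix

namespace Pool.Agent.Results.MP_9d3c7b_al.SameClass

open Pool.Agent.Helper445_GMF Pool.Agent.W2helper44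

/-- the degrees of the three variables `X 0`, `X 1`, `X 2`: the group `𝕃` of the weights `3, 4, 5`
is identified with the group of the integers, with `x₁ = 20`, `x₂ = 15`, `x₃ = 12` and `c = 60` -/
def wts : Fin 3 → ℕ := ![20, 15, 12]

/-- the defining relation `X₃ ^ 5 - X₂ ^ 4 + λ X₁ ^ 3` of the weighted projective line with the
weights `3, 4, 5` and the parameter `λ` -/
noncomputable def pot (lam : ℂ) : MvPolynomial (Fin 3) ℂ :=
  X 2 ^ 5 - X 1 ^ 4 + C lam * X 0 ^ 3

theorem pot_wh (lam : ℂ) : IsWeightedHomogeneous wts (pot lam) 60 := WPL.pot_wh lam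

/-- The data for the matrix factorizations of `pot lam`. The grading group `Gd 60` is generated by
`tau 60` (the twist by `1`) and by `sig 60` (the suspension), with `60 • tau 60 = 2 • sig 60`. -/
@[reducible] noncomputable def LL (lam : ℂ) : LG := lg wts 60 (pot lam) (pot_wh lam)

/-- the relations of the Grothendieck group: `[Y] = [X] + [V]` for every exact triangle
`X → Y → V → X[1]` of the homotopy category of matrix factorizations -/
def rels (L : LG) : AddSubgroup (FreeAbelianGroup (MF L)) :=
  AddSubgroup.closure {x | ∃ X Y V : MF L, Tri X Y V ∧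
    x = FreeAbelianGroup.of Y - (FreeAbelianGroup.of X + FreeAbelianGroup.of V)}

/-- the class of an object in the Grothendieck group -/
def cls {L : LG} (X : MF L) : FreeAbelianGroup (MF L) ⧸ rels L :=
  QuotientAddGroup.mk (FreeAbelianGroup.of X)

/-- Exceptional objects of the homotopy category: the object is not zero, every endomorphism is a
multiple of the identity, and the morphisms to the object `X[k]` are zero for `k ≠ 0`. -/
def Exc {L : LG} (X : MF L) : Prop :=
  ¬ Null X ∧ (∀ f ∈ Z X X, ∃ c : ℂ, f - c • (1 : Matrix X.I X.I L.A) ∈ N X X) ∧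
    ∀ k : ℤ, k ≠ 0 → Z X (X.sk k) ⊆ N X (X.sk k)

theorem ts_eq {L : LG} (X : MF L) {a a' : L.G} {c c' : ℂ} (hc : c * c = 1) (hc' : c' * c' = 1)
    (h : a = a') (h' : c = c') : X.ts a c hc = X.ts a' c' hc' := by
  subst h; subst h'; rfl

theorem sk_eq {L : LG} (X : MF L) (k : ℤ) : X.sk k = X⟦k⟧ :=
  ts_eq X (neg_one_zpow_sq k) (sgn_sq k) rfl (by unfold sgn; rw [Int.cast_negOnePow])

theorem cls_tri {L : LG} {X Y V : MF L} (h : Tri X Y V) : cls Y = cls X + cls V := by
  have hr : FreeAbelianGroup.of Y - (FreeAbelianGroup.of X + FreeAbelianGroup.of V) ∈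
    rels L := AddSubgroup.subset_closure ⟨X, Y, V, h, rfl⟩
  have h6 := (QuotientAddGroup.eq_zero_iff _).2 hr
  rw [QuotientAddGroup.mk_sub, QuotientAddGroup.mk_add, sub_eq_zero] at h6
  exact h6

theorem exc_of_conc {lam : ℂ} {X : MF (LL lam)} (h : Tc.Conc X X 0) : Exc X := by
  refine ⟨fun h0 => ?_, fun f hf => ?_, fun k hk f hf => ?_⟩
  · have h1 : Tc.D X X 0 = 0 := Tc.D_zero.2 fun f => (null_iff.1 h0).eq_of_src _ _
    rw [h.one] at h1
    exact one_ne_zero h1
  · obtain ⟨c, hc⟩ := Tc.scalar h (hm f hf)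
    refine ⟨c, ?_⟩
    rw [hm_id] at hc
    exact hm_eq_iff.1 hc
  · have h1 := h.zero hk
    rw [Tc.D_zero, ← sk_eq] at h1
    exact hm_eq_zero_iff.1 (h1 (hm f hf))

theorem result (lam : ℂ) : ∃ E F : MF (LL lam), Exc E ∧ Exc F ∧ cls E = cls F ∧
    (∀ n : ℤ, ¬ Heq F (E.ts (n • (60 • tau 60)) 1 (one_mul 1))) ∧
    ∀ n : ℤ, ¬ Heq F (E.sk n) := by
  obtain ⟨F, h1, h2, h3, h4⟩ := WPL.exists_F lam
  have h5 : ∀ n : ℤ, ¬ Heq F ((WPL.K lam 54).sk n) := by
    intro n h
    rw [sk_eq] at h
    obtain ⟨e⟩ := heq_iff.1 h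
    exact (h3 n).false e
  refine ⟨WPL.K lam 54, F, exc_of_conc h2, exc_of_conc h1, ?_, fun n h => h5 (2 * n) ?_, h5⟩
  · refine (h4 _ cls ?_).symm
    intro X Y V f g h hT
    exact cls_tri (tri_of_dist _ hT)
  · have e : (WPL.K lam 54).sk (2 * n) =
        (WPL.K lam 54).ts (n • (60 • tau 60)) 1 (one_mul 1) := by
      refine ts_eq _ _ _ ?_ ?_
      · rw [d_tau]
        show (2 * n) • sig 60 = _
        module
      · rw [_root_.zpow_mul]; norm_num
    rw [e]
    exact h

end Pool.Agent.Results.MP_9d3c7b_al.SameClass
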